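import Pool.Agent.H55.SG.Pts

/-!
# SG22: the arrangement and its intersection points
-/

set_option autoImplicit false

namespace SG22

open R

/-- the coefficient vectors of the 22 lines -/
noncomputable def vec (i : Fin 22) : Fin 3 → ℂ := ![ph (pt i).1, ph (pt i).2.1, ph (pt i).2.2]

theorem vec0 (i : Fin 22) : vec i 0 = ph (pt i).1 := rfl
theorem vec1 (i : Fin 22) : vec i 1 = ph (pt i).2.1 := rfl
theorem vec2 (i : Fin 22) : vec i 2 = ph (pt i).2.2 := rfl

theorem minors {i j : Fin 22} (h : i ≠ j) :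
    vec i 0 * vec j 1 - vec i 1 * vec j 0 ≠ 0 ∨ vec i 0 * vec j 2 - vec i 2 * vec j 0 ≠ 0 ∨
      vec i 1 * vec j 2 - vec i 2 * vec j 1 ≠ 0 := by
  have h1 := okPair_all i j
  simp only [okPair, Bool.or_eq_true, beq_iff_eq] at h1
  rcases h1 with h1 | (h1 | h1) | h1
  · exact absurd h1 h
  · left
    have := ph_ne h1
    rwa [m01, ph_sub, ph_mul, ph_mul] at this
  · right; left
    have := ph_ne h1
    rwa [m02, ph_sub, ph_mul, ph_mul] at this
  · right; right
    have := ph_ne h1
    rwa [m12, ph_sub, ph_mul, ph_mul] at this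

theorem vec_ne (i : Fin 22) : ∃ t, vec i t ≠ 0 := by
  have hj : ∃ j : Fin 22, i ≠ j := ⟨if i = 0 then 1 else 0, by split_ifs with h <;> simp [h]⟩
  obtain ⟨j, hj⟩ := hj
  by_contra hcon
  push Not at hcon
  rcases minors hj with h | h | h <;> exact h (by simp [hcon])

theorem exists_third {i j : Fin 22} (h : i ≠ j) : ∃ k : Fin 22, k ≠ i ∧ k ≠ j ∧
    vec k 0 * (vec i 1 * vec j 2 - vec i 2 * vec j 1) - vec k 1 * (vec i 0 * vec j 2 - vec i 2 * vec j 0) +
      vec k 2 * (vec i 0 * vec j 1 - vec i 1 * vec j 0) = 0 := by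
  have h1 := okThird_all i j
  simp only [okThird, Bool.or_eq_true, beq_iff_eq] at h1
  rcases h1 with h1 | h1
  · exact absurd h1 h
  · split_ifs at h1 with h2
    simp only [Bool.and_eq_true, bne_iff_ne] at h1
    obtain ⟨⟨h3, h4⟩, h5⟩ := h1
    refine ⟨⟨third i j, h2⟩, h3, h4, ?_⟩
    have := ph_zero h5
    simp only [det3, m01, m02, m12, ph_add, ph_sub, ph_mul] at this
    exact this

/-- the lines are distinct -/
theorem lin_inj : Function.Injective (fun i : Fin 22 => lin (vec i)) := by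
  intro i j hij
  by_contra h
  simp only at hij
  have key : ∀ x : Fin 3 → ℂ, vec i 0 * x 0 + vec i 1 * x 1 + vec i 2 * x 2 = 0 →
      vec j 0 * x 0 + vec j 1 * x 1 + vec j 2 * x 2 = 0 := by
    intro x hx
    rw [← mem_lin] at hx ⊢
    rw [← hij]; exact hx
  rcases minors h with h1 | h1 | h1
  · apply h1
    have := key ![vec i 1, -vec i 0, 0] (by simp; ring)
    simp at this
    linear_combination -this
  · apply h1
    have := key ![vec i 2, 0, -vec i 0] (by simp; ring)
    simp at this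
    linear_combination -this
  · apply h1
    have := key ![0, vec i 2, -vec i 1] (by simp; ring)
    simp at this
    linear_combination -this

/-- the third line -/
theorem third_line {i j : Fin 22} (h : i ≠ j) : ∃ k : Fin 22, k ≠ i ∧ k ≠ j ∧
    ∀ x, x ∈ lin (vec i) → x ∈ lin (vec j) → x ∈ lin (vec k) := by
  obtain ⟨k, hki, hkj, hk⟩ := exists_third h
  refine ⟨k, hki, hkj, fun x hx hy => ?_⟩
  rw [mem_lin] at *
  rcases minors h with h1 | h1 | h1
  · apply (mul_eq_zero.1 (_ : (vec i 0 * vec j 1 - vec i 1 * vec j 0) * _ = 0)).resolve_left h1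
    linear_combination (vec k 0 * vec j 1 - vec k 1 * vec j 0) * hx + (vec i 0 * vec k 1 - vec i 1 * vec k 0) * hy + x 2 * hk
  · apply (mul_eq_zero.1 (_ : (vec i 0 * vec j 2 - vec i 2 * vec j 0) * _ = 0)).resolve_left h1
    linear_combination (vec k 0 * vec j 2 - vec k 2 * vec j 0) * hx + (vec i 0 * vec k 2 - vec i 2 * vec k 0) * hy - x 1 * hk
  · apply (mul_eq_zero.1 (_ : (vec i 1 * vec j 2 - vec i 2 * vec j 1) * _ = 0)).resolve_left h1
    linear_combination (vec k 1 * vec j 2 - vec k 2 * vec j 1) * hx + (vec i 1 * vec k 2 - vec i 2 * vec k 1) * hy + x 0 * hk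

theorem card22 : (Set.range (fun i : Fin 22 => lin (vec i))).ncard = 22 := by
  rw [← Nat.card_coe_set_eq, Nat.card_range_of_injective lin_inj]
  simp



/-- the arrangement of 22 lines -/
noncomputable def arr : Set (Submodule ℂ (Fin 3 → ℂ)) := Set.range (fun i : Fin 22 => lin (vec i))

/-- the vector of an intersection point -/
noncomputable def wv (L : Fin 69) : Fin 3 → ℂ := ![ph (wt L).1, ph (wt L).2.1, ph (wt L).2.2]

theorem dot_wv (i : Fin 22) (L : Fin 69) :
    vec i 0 * wv L 0 + vec i 1 * wv L 1 + vec i 2 * wv L 2 = ph (dot3 (pt i) (wt L)) := by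
  simp only [dot3, ph_add, ph_mul]
  rfl

theorem wv_mem {i : Fin 22} {L : Fin 69} : wv L ∈ lin (vec i) ↔ memb i L = true := by
  rw [mem_lin, dot_wv]
  have h := okInc_all L i
  unfold okInc at h
  constructor
  · intro h0
    by_contra hm
    rw [if_neg hm] at h
    exact ph_ne h h0
  · intro hm
    rw [if_pos hm] at h
    exact ph_zero h

/-- the intersection point -/
noncomputable def pw (L : Fin 69) : Submodule ℂ (Fin 3 → ℂ) := Submodule.span ℂ {wv L}

theorem pw_le {i : Fin 22} {L : Fin 69} : pw L ≤ lin (vec i) ↔ memb i L = true := by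
  rw [pw, Submodule.span_singleton_le_iff_mem, wv_mem]

theorem wv_ne (L : Fin 69) : wv L ≠ 0 := by
  intro h
  have h1 := okOut_all L
  simp only [okOut, List.any_eq_true, Bool.not_eq_true'] at h1
  obtain ⟨i, _, hi⟩ := h1
  have : wv L ∈ lin (vec i) := by rw [h]; exact Submodule.zero_mem _
  rw [wv_mem, hi] at this
  exact absurd this (by decide)

theorem finrank_pw (L : Fin 69) : Module.finrank ℂ (pw L) = 1 := finrank_span_singleton (wv_ne L)

/-- the multiplicity of a point -/
noncomputable def mult (A : Set (Submodule ℂ (Fin 3 → ℂ))) (p : Submodule ℂ (Fin 3 → ℂ)) : ℕ :=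
  {ℓ : Submodule ℂ (Fin 3 → ℂ) | ℓ ∈ A ∧ p ≤ ℓ}.ncard

open Classical in
theorem mult_arr (p : Submodule ℂ (Fin 3 → ℂ)) :
    mult arr p = (Finset.univ.filter fun i : Fin 22 => p ≤ lin (vec i)).card := by
  have h : {ℓ : Submodule ℂ (Fin 3 → ℂ) | ℓ ∈ arr ∧ p ≤ ℓ} =
      (fun i : Fin 22 => lin (vec i)) '' (((Finset.univ.filter fun i : Fin 22 => p ≤ lin (vec i)) : Finset (Fin 22)) : Set (Fin 22)) := by
    ext l
    constructor
    · rintro ⟨⟨i, rfl⟩, hp⟩
      exact ⟨i, by simpa using hp, rfl⟩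
    · rintro ⟨i, hi, rfl⟩
      exact ⟨⟨i, rfl⟩, by simpa using hi⟩
  rw [mult, h, Set.ncard_image_of_injective _ lin_inj, Set.ncard_coe_finset]

theorem mult_pw (L : Fin 69) : mult arr (pw L) = cnt L := by
  classical
  rw [mult_arr, cnt]
  congr 1
  ext i
  simp [pw_le]

/-- the common point of two lines -/
theorem eq_pw {p : Submodule ℂ (Fin 3 → ℂ)} (hp : Module.finrank ℂ p = 1) {i j : Fin 22} (hij : i ≠ j)
    (h1 : p ≤ lin (vec i)) (h2 : p ≤ lin (vec j)) : ∃ L : Fin 69, p = pw L ∧ L.val = lineOf i j := by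
  have h := okLine_all i j
  simp only [okLine, Bool.or_eq_true, beq_iff_eq] at h
  rcases h with h | h
  · exact absurd h hij
  split_ifs at h with hL
  simp only [Bool.and_eq_true] at h
  refine ⟨⟨lineOf i j, hL⟩, ?_, rfl⟩
  have e1 : pw ⟨lineOf i j, hL⟩ ≤ lin (vec i) ⊓ lin (vec j) := le_inf (pw_le.2 h.1) (pw_le.2 h.2)
  have e2 : p ≤ lin (vec i) ⊓ lin (vec j) := le_inf h1 h2
  have hne : lin (vec i) ≠ lin (vec j) := fun e => hij (lin_inj e)
  have hfr : Module.finrank ℂ ((lin (vec i) ⊓ lin (vec j) : Submodule ℂ (Fin 3 → ℂ))) = 1 := by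
    have hs := Submodule.finrank_sup_add_finrank_inf_eq (lin (vec i)) (lin (vec j))
    rw [finrank_lin (vec_ne i), finrank_lin (vec_ne j)] at hs
    have h3 : Module.finrank ℂ (Fin 3 → ℂ) = 3 := by simp
    have hle := Submodule.finrank_le (lin (vec i) ⊔ lin (vec j))
    have hlt : lin (vec i) < lin (vec i) ⊔ lin (vec j) := by
      refine lt_of_le_of_ne le_sup_left fun e => hne ?_
      have hj : lin (vec j) ≤ lin (vec i) := by rw [e]; exact le_sup_right
      exact (Submodule.eq_of_le_of_finrank_eq hj (by rw [finrank_lin (vec_ne i), finrank_lin (vec_ne j)])).symm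
    have h4 := Submodule.finrank_lt_finrank_of_lt hlt
    rw [finrank_lin (vec_ne i)] at h4
    omega
  rw [Submodule.eq_of_le_of_finrank_eq e1 (by rw [hfr, finrank_pw]), Submodule.eq_of_le_of_finrank_eq e2 (by rw [hfr, hp])]

theorem two_lines (L : Fin 69) : ∃ i j : Fin 22, i ≠ j ∧ memb i L = true ∧ memb j L = true := by
  have h := okTwo_all L
  simp only [okTwo, List.any_eq_true, Bool.and_eq_true, Bool.not_eq_true', beq_eq_false_iff_ne] at h
  obtain ⟨i, _, j, _, ⟨h1, h2⟩, h3⟩ := h
  exact ⟨i, j, h1, h2, h3⟩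

theorem uniq {L : Fin 69} {i j : Fin 22} (hij : i ≠ j) (h1 : memb i L = true) (h2 : memb j L = true) :
    lineOf i j = L.val := by
  have h := okUniq_all L
  simp only [okUniq, List.all_eq_true] at h
  simp only [memb, List.contains_iff_mem] at h1 h2
  have h3 := h i.val h1 j.val h2
  simp only [Bool.or_eq_true, beq_iff_eq] at h3
  rcases h3 with h3 | h3
  · exact absurd (Fin.ext h3) hij
  · exact h3

theorem pw_inj : Function.Injective pw := by
  intro L L' h
  obtain ⟨i, j, hij, h1, h2⟩ := two_lines L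
  have e1 : memb i L' = true := by rw [← pw_le, ← h, pw_le]; exact h1
  have e2 : memb j L' = true := by rw [← pw_le, ← h, pw_le]; exact h2
  have u1 := uniq hij h1 h2
  have u2 := uniq hij e1 e2
  exact Fin.ext (u1.symm.trans u2)

/-- a point on two lines of the arrangement is one of the 69 points -/
theorem exists_pw {p : Submodule ℂ (Fin 3 → ℂ)} (hp : Module.finrank ℂ p = 1) (h : 2 ≤ mult arr p) : ∃ L : Fin 69, p = pw L := by
  classical
  rw [mult_arr] at h
  obtain ⟨i, hi, j, hj, hij⟩ := Finset.one_lt_card.1 (by omega : 1 < (Finset.univ.filter fun i : Fin 22 => p ≤ lin (vec i)).card)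
  simp only [Finset.mem_filter, Finset.mem_univ, true_and] at hi hj
  obtain ⟨L, hL, _⟩ := eq_pw hp hij hi hj
  exact ⟨L, hL⟩

theorem count (k : ℕ) (hk : 2 ≤ k) :
    {p : Submodule ℂ (Fin 3 → ℂ) | Module.finrank ℂ p = 1 ∧ mult arr p = k}.ncard =
      (Finset.univ.filter fun L : Fin 69 => cnt L = k).card := by
  have h : {p : Submodule ℂ (Fin 3 → ℂ) | Module.finrank ℂ p = 1 ∧ mult arr p = k} =
      pw '' (((Finset.univ.filter fun L : Fin 69 => cnt L = k) : Finset (Fin 69)) : Set (Fin 69)) := by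
    ext p
    constructor
    · rintro ⟨hp, hm⟩
      obtain ⟨L, rfl⟩ := exists_pw hp (by omega)
      refine ⟨L, ?_, rfl⟩
      rw [mult_pw] at hm
      simpa using hm
    · rintro ⟨L, hL, rfl⟩
      refine ⟨finrank_pw L, ?_⟩
      rw [mult_pw]
      simpa using hL
  rw [h, Set.ncard_image_of_injective _ pw_inj, Set.ncard_coe_finset]

end SG22
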