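import Pool.Agent.H55.SG.Lin

/-!
# SG22: the number of lines of a Fermat arrangement is divisible by 3
-/

set_option autoImplicit false

namespace SG22

/-- the lines of the Fermat arrangement, indexed by `Fin 3` and the roots of unity -/
noncomputable def fl (S : Set ℂ) (p : Fin 3 × S) : Submodule ℂ (Fin 3 → ℂ) :=
  match p.1 with
  | 0 => lin ![1, -(p.2 : ℂ), 0]
  | 1 => lin ![1, 0, -(p.2 : ℂ)]
  | 2 => lin ![0, 1, -(p.2 : ℂ)]

/-- the Fermat arrangement -/
def Fset (r : ℕ) : Set (Submodule ℂ (Fin 3 → ℂ)) :=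
  {ℓ : Submodule ℂ (Fin 3 → ℂ) | Module.finrank ℂ ℓ = 2 ∧
          ∃ ζ : ℂ, ζ ^ r = 1 ∧
            ((∀ x ∈ ℓ, x 0 = ζ * x 1) ∨ (∀ x ∈ ℓ, x 0 = ζ * x 2) ∨
              (∀ x ∈ ℓ, x 1 = ζ * x 2))}

theorem fset_eq (r : ℕ) : Fset r = Set.range (fl {z : ℂ | z ^ r = 1}) := by
  have e0 : ∀ z : ℂ, ∃ i, (![1, -z, 0] : Fin 3 → ℂ) i ≠ 0 := fun z => ⟨0, by simp⟩
  have e1 : ∀ z : ℂ, ∃ i, (![1, 0, -z] : Fin 3 → ℂ) i ≠ 0 := fun z => ⟨0, by simp⟩
  have e2 : ∀ z : ℂ, ∃ i, (![0, 1, -z] : Fin 3 → ℂ) i ≠ 0 := fun z => ⟨1, by simp⟩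
  ext l
  constructor
  · rintro ⟨hl, z, hz, h⟩
    rcases h with h | h | h
    · refine ⟨(0, ⟨z, hz⟩), ?_⟩
      refine (eq_lin (e0 z) hl fun x hx => ?_).symm
      rw [mem_lin]
      have := h x hx
      simp
      rw [this]; ring
    · refine ⟨(1, ⟨z, hz⟩), ?_⟩
      refine (eq_lin (e1 z) hl fun x hx => ?_).symm
      rw [mem_lin]
      have := h x hx
      simp
      rw [this]; ring
    · refine ⟨(2, ⟨z, hz⟩), ?_⟩
      refine (eq_lin (e2 z) hl fun x hx => ?_).symm
      rw [mem_lin]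
      have := h x hx
      simp
      rw [this]; ring
  · rintro ⟨⟨i, z, hz⟩, rfl⟩
    fin_cases i
    · refine ⟨finrank_lin (e0 z), z, hz, Or.inl fun x hx => ?_⟩
      have h := mem_lin.1 hx
      simp at h
      linear_combination h
    · refine ⟨finrank_lin (e1 z), z, hz, Or.inr (Or.inl fun x hx => ?_)⟩
      have h := mem_lin.1 hx
      simp at h
      linear_combination h
    · refine ⟨finrank_lin (e2 z), z, hz, Or.inr (Or.inr fun x hx => ?_)⟩
      have h := mem_lin.1 hx
      simp at h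
      linear_combination h

theorem fl_inj {S : Set ℂ} (h0 : (0 : ℂ) ∉ S) : Function.Injective (fl S) := by
  have key : ∀ v w x : Fin 3 → ℂ, lin v = lin w → v 0 * x 0 + v 1 * x 1 + v 2 * x 2 = 0 →
      w 0 * x 0 + w 1 * x 1 + w 2 * x 2 = 0 := by
    intro v w x h hx
    rw [← mem_lin] at hx ⊢
    rw [← h]; exact hx
  rintro ⟨i, z, hz⟩ ⟨j, w, hw⟩ h
  have hz0 : z ≠ 0 := fun e => h0 (e ▸ hz)
  have hw0 : w ≠ 0 := fun e => h0 (e ▸ hw)
  fin_cases i <;> fin_cases j
  · have := key _ _ ![z, 1, 0] h (by simp)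
    simp at this
    have e : z = w := by linear_combination this
    subst e; rfl
  · exfalso
    have := key _ _ ![0, 0, 1] h (by simp)
    simp at this
    exact hw0 this
  · exfalso
    have := key _ _ ![0, 0, 1] h (by simp)
    simp at this
    exact hw0 this
  · exfalso
    have := key _ _ ![0, 1, 0] h (by simp)
    simp at this
    exact hw0 this
  · have := key _ _ ![z, 0, 1] h (by simp)
    simp at this
    have e : z = w := by linear_combination this
    subst e; rfl
  · exfalso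
    have := key _ _ ![0, 1, 0] h (by simp)
    simp at this
  · exfalso
    have := key _ _ ![1, 0, 0] h (by simp)
    simp at this
  · exfalso
    have := key _ _ ![1, 0, 0] h (by simp)
    simp at this
  · have := key _ _ ![0, z, 1] h (by simp)
    simp at this
    have e : z = w := by linear_combination this
    subst e; rfl

theorem fset_dvd {r : ℕ} (hr : 1 ≤ r) (g : (Fin 3 → ℂ) ≃ₗ[ℂ] (Fin 3 → ℂ)) :
    3 ∣ (Submodule.map g.toLinearMap '' Fset r).ncard := by
  have hinj : Function.Injective (Submodule.map g.toLinearMap) :=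
    Submodule.map_injective_of_injective g.injective
  rw [Set.ncard_image_of_injective _ hinj, fset_eq]
  have h0 : (0 : ℂ) ∉ {z : ℂ | z ^ r = 1} := by
    simp only [Set.mem_setOf_eq]
    rw [zero_pow (by omega)]
    exact zero_ne_one
  rw [← Nat.card_coe_set_eq, Nat.card_range_of_injective (fl_inj h0), Nat.card_prod]
  simp

end SG22
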