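import Mathlib

/-!
# SG22: a finite subgroup of `PGL₃(ℂ)` has no involution or an odd number of involution axes
-/

set_option autoImplicit false

namespace SG22

open Matrix

/-- the centre of `GL₃(ℂ)` consists of the scalar matrices -/
theorem mem_cen {g : GL (Fin 3) ℂ} :
    g ∈ Subgroup.center (GL (Fin 3) ℂ) ↔ ∃ c : ℂ, (g : Matrix (Fin 3) (Fin 3) ℂ) = c • 1 := by
  rw [Matrix.GeneralLinearGroup.mem_center_iff_val_mem_range_scalar]
  constructor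
  · rintro ⟨c, hc⟩
    refine ⟨c, ?_⟩
    rw [← hc, Matrix.scalar_apply, Matrix.smul_one_eq_diagonal]
  · rintro ⟨c, hc⟩
    refine ⟨c, ?_⟩
    rw [hc, Matrix.scalar_apply, Matrix.smul_one_eq_diagonal]

/-- eigenspaces -/
noncomputable def E (g : Matrix (Fin 3) (Fin 3) ℂ) (c : ℂ) : Submodule ℂ (Fin 3 → ℂ) :=
  LinearMap.ker (Matrix.mulVecLin (g - c • (1 : Matrix (Fin 3) (Fin 3) ℂ)))

theorem mem_E {g : Matrix (Fin 3) (Fin 3) ℂ} {c : ℂ} {x : Fin 3 → ℂ} : x ∈ E g c ↔ g *ᵥ x = c • x := by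
  rw [E, LinearMap.mem_ker, Matrix.mulVecLin_apply, Matrix.sub_mulVec, Matrix.smul_mulVec, Matrix.one_mulVec, sub_eq_zero]

theorem eq_of_mulVec {g h : Matrix (Fin 3) (Fin 3) ℂ} (H : ∀ x, g *ᵥ x = h *ᵥ x) : g = h := by
  ext i j
  have := congrFun (H (Pi.single j 1)) i
  simpa using this

theorem eq_of_E {g : Matrix (Fin 3) (Fin 3) ℂ} {c : ℂ} (h : Module.finrank ℂ (E g c) = 3) : g = c • 1 := by
  have h3 : Module.finrank ℂ (Fin 3 → ℂ) = 3 := by simp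
  have ht : E g c = ⊤ := Submodule.eq_top_of_finrank_eq (by rw [h, h3])
  apply eq_of_mulVec
  intro x
  rw [Matrix.smul_mulVec, Matrix.one_mulVec]
  exact mem_E.1 (ht ▸ Submodule.mem_top)

theorem finrank_le3 (l : Submodule ℂ (Fin 3 → ℂ)) : Module.finrank ℂ l ≤ 3 := by
  have h := Submodule.finrank_le l
  have h3 : Module.finrank ℂ (Fin 3 → ℂ) = 3 := by simp
  omega

theorem exists_axis {g : GL (Fin 3) ℂ} (h2 : g ^ 2 ∈ Subgroup.center (GL (Fin 3) ℂ))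
    (hg : g ∉ Subgroup.center (GL (Fin 3) ℂ)) :
    ∃ l : Submodule ℂ (Fin 3 → ℂ), Module.finrank ℂ l = 2 ∧
      ∃ c : ℂ, ∀ x ∈ l, (g : Matrix (Fin 3) (Fin 3) ℂ) *ᵥ x = c • x := by
  obtain ⟨s, hs⟩ := mem_cen.1 h2
  have hs2 : (g : Matrix (Fin 3) (Fin 3) ℂ) * (g : Matrix (Fin 3) (Fin 3) ℂ) = s • 1 := by
    rw [← hs]; simp [sq]
  have hs0 : s ≠ 0 := by
    rintro rfl
    rw [zero_smul] at hs
    exact (Units.ne_zero (g ^ 2)) hs
  obtain ⟨a, ha⟩ := IsAlgClosed.exists_pow_nat_eq s (n := 2) (by norm_num)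
  have ha0 : a ≠ 0 := by
    rintro rfl
    apply hs0
    rw [← ha]; norm_num
  have hgg : ∀ x, (g : Matrix (Fin 3) (Fin 3) ℂ) *ᵥ ((g : Matrix (Fin 3) (Fin 3) ℂ) *ᵥ x) = s • x := by
    intro x
    rw [Matrix.mulVec_mulVec, hs2, Matrix.smul_mulVec, Matrix.one_mulVec]
  have hc : IsCompl (E (g : Matrix (Fin 3) (Fin 3) ℂ) a) (E (g : Matrix (Fin 3) (Fin 3) ℂ) (-a)) := by
    constructor
    · rw [Submodule.disjoint_def]
      intro x h1 h2
      rw [mem_E] at h1 h2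
      rw [h1] at h2
      have h3 : (2 * a) • x = 0 := by
        have : (2 * a) • x = a • x - (-a) • x := by rw [← sub_smul]; ring_nf
        rw [this, h2, sub_self]
      rcases smul_eq_zero.1 h3 with h4 | h4
      · exact absurd h4 (mul_ne_zero two_ne_zero ha0)
      · exact h4
    · rw [codisjoint_iff_le_sup]
      intro x _
      have h1 : a • x + (g : Matrix (Fin 3) (Fin 3) ℂ) *ᵥ x ∈ E (g : Matrix (Fin 3) (Fin 3) ℂ) a := by
        rw [mem_E, Matrix.mulVec_add, Matrix.mulVec_smul, hgg, smul_add, smul_smul, ← sq, ha, add_comm]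
      have h2 : a • x - (g : Matrix (Fin 3) (Fin 3) ℂ) *ᵥ x ∈ E (g : Matrix (Fin 3) (Fin 3) ℂ) (-a) := by
        rw [mem_E, Matrix.mulVec_sub, Matrix.mulVec_smul, hgg, smul_sub, smul_smul, neg_mul, ← sq, ha]
        rw [neg_smul, neg_smul]
        abel
      have h3 : x = (2 * a)⁻¹ • (a • x + (g : Matrix (Fin 3) (Fin 3) ℂ) *ᵥ x) +
          (2 * a)⁻¹ • (a • x - (g : Matrix (Fin 3) (Fin 3) ℂ) *ᵥ x) := by
        rw [← smul_add]
        have : a • x + (g : Matrix (Fin 3) (Fin 3) ℂ) *ᵥ x + (a • x - (g : Matrix (Fin 3) (Fin 3) ℂ) *ᵥ x) = (2 * a) • x := by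
          rw [two_mul, add_smul]; abel
        rw [this, smul_smul, inv_mul_cancel₀ (mul_ne_zero two_ne_zero ha0), one_smul]
      rw [h3]
      exact Submodule.add_mem_sup (Submodule.smul_mem _ _ h1) (Submodule.smul_mem _ _ h2)
  have hsum := Submodule.finrank_add_eq_of_isCompl hc
  have h3 : Module.finrank ℂ (Fin 3 → ℂ) = 3 := by simp
  rw [h3] at hsum
  have hn1 : Module.finrank ℂ (E (g : Matrix (Fin 3) (Fin 3) ℂ) a) ≠ 3 := fun h =>
    hg (mem_cen.2 ⟨a, eq_of_E h⟩)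
  have hn2 : Module.finrank ℂ (E (g : Matrix (Fin 3) (Fin 3) ℂ) (-a)) ≠ 3 := fun h =>
    hg (mem_cen.2 ⟨-a, eq_of_E h⟩)
  by_cases h : Module.finrank ℂ (E (g : Matrix (Fin 3) (Fin 3) ℂ) a) = 2
  · exact ⟨_, h, a, fun x hx => mem_E.1 hx⟩
  · exact ⟨_, (by omega : Module.finrank ℂ (E (g : Matrix (Fin 3) (Fin 3) ℂ) (-a)) = 2), -a, fun x hx => mem_E.1 hx⟩

/-- an axis is an eigenspace -/
theorem axis_eq {g : Matrix (Fin 3) (Fin 3) ℂ} {c : ℂ} (hg : ∀ a : ℂ, g ≠ a • 1) {l : Submodule ℂ (Fin 3 → ℂ)}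
    (hl : Module.finrank ℂ l = 2) (h : ∀ x ∈ l, g *ᵥ x = c • x) : l = E g c := by
  have hle : l ≤ E g c := fun x hx => mem_E.2 (h x hx)
  have h1 : Module.finrank ℂ (E g c) ≠ 3 := fun h => hg c (eq_of_E h)
  have h2 := finrank_le3 (E g c)
  have h3 := Submodule.finrank_mono hle
  exact Submodule.eq_of_le_of_finrank_eq hle (by omega)

theorem exists_ne {l : Submodule ℂ (Fin 3 → ℂ)} (hl : 0 < Module.finrank ℂ l) : ∃ x ∈ l, x ≠ 0 := by
  have : l ≠ ⊥ := by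
    rintro rfl
    simp at hl
  exact (Submodule.ne_bot_iff l).1 this

/-- the axis is unique -/
theorem axis_unique {g : Matrix (Fin 3) (Fin 3) ℂ} {c c' : ℂ} (hg : ∀ a : ℂ, g ≠ a • 1) {l l' : Submodule ℂ (Fin 3 → ℂ)}
    (hl : Module.finrank ℂ l = 2) (h : ∀ x ∈ l, g *ᵥ x = c • x)
    (hl' : Module.finrank ℂ l' = 2) (h' : ∀ x ∈ l', g *ᵥ x = c' • x) : l = l' := by
  have h1 := Submodule.finrank_sup_add_finrank_inf_eq l l'
  have h2 := finrank_le3 (l ⊔ l')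
  obtain ⟨x, hx, hx0⟩ := exists_ne (l := l ⊓ l') (by omega)
  have e1 := h x hx.1
  have e2 := h' x hx.2
  have hc : c = c' := by
    have : (c - c') • x = 0 := by rw [sub_smul, ← e1, ← e2, sub_self]
    rcases smul_eq_zero.1 this with h4 | h4
    · exact sub_eq_zero.1 h4
    · exact absurd h4 hx0
  subst hc
  rw [axis_eq hg hl h, axis_eq hg hl' h']

/-- two involutions with the same axis which generate a finite group are equal -/
theorem same_axis {g1 g2 : GL (Fin 3) ℂ} (h1 : g1 ^ 2 ∈ Subgroup.center (GL (Fin 3) ℂ))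
    (h2 : g2 ^ 2 ∈ Subgroup.center (GL (Fin 3) ℂ)) (n1 : g1 ∉ Subgroup.center (GL (Fin 3) ℂ))
    (n2 : g2 ∉ Subgroup.center (GL (Fin 3) ℂ)) {l : Submodule ℂ (Fin 3 → ℂ)} (hl : Module.finrank ℂ l = 2) {c1 c2 : ℂ}
    (s1 : ∀ x ∈ l, (g1 : Matrix (Fin 3) (Fin 3) ℂ) *ᵥ x = c1 • x)
    (s2 : ∀ x ∈ l, (g2 : Matrix (Fin 3) (Fin 3) ℂ) *ᵥ x = c2 • x) {n : ℕ} (hn : 0 < n)
    (hfin : (g1 * g2) ^ n ∈ Subgroup.center (GL (Fin 3) ℂ)) : g1⁻¹ * g2 ∈ Subgroup.center (GL (Fin 3) ℂ) := by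
  obtain ⟨y, hy, hy0⟩ := exists_ne (l := l) (by omega)
  -- normalised matrices
  have main : ∀ (g : GL (Fin 3) ℂ) (c : ℂ), g ^ 2 ∈ Subgroup.center (GL (Fin 3) ℂ) → g ∉ Subgroup.center (GL (Fin 3) ℂ) →
      (∀ x ∈ l, (g : Matrix (Fin 3) (Fin 3) ℂ) *ᵥ x = c • x) → c ≠ 0 ∧
      (c⁻¹ • (g : Matrix (Fin 3) (Fin 3) ℂ)) * (c⁻¹ • (g : Matrix (Fin 3) (Fin 3) ℂ)) = 1 ∧
      (∀ x ∈ l, (c⁻¹ • (g : Matrix (Fin 3) (Fin 3) ℂ)) *ᵥ x = x) ∧
      (∀ x, (c⁻¹ • (g : Matrix (Fin 3) (Fin 3) ℂ)) *ᵥ x + x ∈ l) := by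
    intro g c h2 hg hs
    have hc : c ≠ 0 := by
      rintro rfl
      have h := hs y hy
      rw [zero_smul] at h
      apply hy0
      have : ((g⁻¹ : GL (Fin 3) ℂ) : Matrix (Fin 3) (Fin 3) ℂ) *ᵥ ((g : Matrix (Fin 3) (Fin 3) ℂ) *ᵥ y) = y := by
        rw [Matrix.mulVec_mulVec, ← Units.val_mul, inv_mul_cancel, Units.val_one, Matrix.one_mulVec]
      rw [← this, h, Matrix.mulVec_zero]
    have hG : ∀ x ∈ l, (c⁻¹ • (g : Matrix (Fin 3) (Fin 3) ℂ)) *ᵥ x = x := by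
      intro x hx
      rw [Matrix.smul_mulVec, hs x hx, smul_smul, inv_mul_cancel₀ hc, one_smul]
    obtain ⟨s, hs'⟩ := mem_cen.1 h2
    have hsq : (c⁻¹ • (g : Matrix (Fin 3) (Fin 3) ℂ)) * (c⁻¹ • (g : Matrix (Fin 3) (Fin 3) ℂ)) = (c⁻¹ * c⁻¹ * s) • 1 := by
      have : (g : Matrix (Fin 3) (Fin 3) ℂ) * (g : Matrix (Fin 3) (Fin 3) ℂ) = s • 1 := by
        rw [← hs']; simp [sq]
      rw [smul_mul_smul_comm, this, smul_smul]
    have ht : c⁻¹ * c⁻¹ * s = 1 := by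
      have h1 : ((c⁻¹ • (g : Matrix (Fin 3) (Fin 3) ℂ)) * (c⁻¹ • (g : Matrix (Fin 3) (Fin 3) ℂ))) *ᵥ y = y := by
        rw [← Matrix.mulVec_mulVec, hG y hy, hG y hy]
      rw [hsq, Matrix.smul_mulVec, Matrix.one_mulVec] at h1
      have h3 : (c⁻¹ * c⁻¹ * s - 1) • y = 0 := by rw [sub_smul, h1, one_smul, sub_self]
      rcases smul_eq_zero.1 h3 with h4 | h4
      · exact sub_eq_zero.1 h4
      · exact absurd h4 hy0
    rw [ht, one_smul] at hsq
    refine ⟨hc, hsq, hG, fun x => ?_⟩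
    have hns : ∀ a : ℂ, (c⁻¹ • (g : Matrix (Fin 3) (Fin 3) ℂ)) ≠ a • 1 := by
      intro a ha
      apply hg
      rw [mem_cen]
      refine ⟨c * a, ?_⟩
      rw [mul_smul, ← ha, smul_smul, mul_inv_cancel₀ hc, one_smul]
    have hE := axis_eq (c := 1) hns hl (fun x hx => by rw [hG x hx, one_smul])
    rw [hE, mem_E, one_smul, Matrix.mulVec_add, Matrix.mulVec_mulVec, hsq, Matrix.one_mulVec, add_comm]
  obtain ⟨hc1, q1, f1, r1⟩ := main g1 c1 h1 n1 s1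
  obtain ⟨hc2, q2, f2, r2⟩ := main g2 c2 h2 n2 s2
  obtain ⟨G1, hG1⟩ : ∃ G1 : Matrix (Fin 3) (Fin 3) ℂ, G1 = c1⁻¹ • (g1 : Matrix (Fin 3) (Fin 3) ℂ) := ⟨_, rfl⟩
  obtain ⟨G2, hG2⟩ : ∃ G2 : Matrix (Fin 3) (Fin 3) ℂ, G2 = c2⁻¹ • (g2 : Matrix (Fin 3) (Fin 3) ℂ) := ⟨_, rfl⟩
  rw [← hG1] at q1 f1 r1
  rw [← hG2] at q2 f2 r2
  have p12 : (G1 - 1) * (G2 + 1) = 0 := by
    apply eq_of_mulVec
    intro x
    rw [← Matrix.mulVec_mulVec, Matrix.add_mulVec, Matrix.one_mulVec, Matrix.sub_mulVec, f1 _ (r2 x), Matrix.one_mulVec,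
      sub_self, Matrix.zero_mulVec]
  have p21 : (G2 - 1) * (G1 + 1) = 0 := by
    apply eq_of_mulVec
    intro x
    rw [← Matrix.mulVec_mulVec, Matrix.add_mulVec, Matrix.one_mulVec, Matrix.sub_mulVec, f2 _ (r1 x), Matrix.one_mulVec,
      sub_self, Matrix.zero_mulVec]
  have e12 : G1 * G2 = 1 + (G2 - G1) := by
    have : G1 * G2 = (G1 - 1) * (G2 + 1) + (1 + (G2 - G1)) := by noncomm_ring
    rw [this, p12, zero_add]
  have e21 : G2 * G1 = 1 - (G2 - G1) := by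
    have : G2 * G1 = (G2 - 1) * (G1 + 1) + (1 - (G2 - G1)) := by noncomm_ring
    rw [this, p21, zero_add]
  have hD : (G2 - G1) * (G2 - G1) = 0 := by
    have : (G2 - G1) * (G2 - G1) = G2 * G2 - G2 * G1 - G1 * G2 + G1 * G1 := by noncomm_ring
    rw [this, q1, q2, e12, e21]
    abel
  have hpow : ∀ k : ℕ, (G1 * G2) ^ k = 1 + (k : ℂ) • (G2 - G1) := by
    intro k
    induction k with
    | zero => simp
    | succ k ih =>
      rw [pow_succ, ih, e12]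
      rw [add_mul, one_mul, mul_add, mul_one, smul_mul_assoc, hD, smul_zero, add_zero]
      push_cast
      rw [add_smul, one_smul]
      abel
  obtain ⟨v, hv⟩ := mem_cen.1 hfin
  have hG12 : (G1 * G2) ^ n = ((c1⁻¹ * c2⁻¹) ^ n * v) • 1 := by
    have : G1 * G2 = (c1⁻¹ * c2⁻¹) • ((g1 : Matrix (Fin 3) (Fin 3) ℂ) * (g2 : Matrix (Fin 3) (Fin 3) ℂ)) := by
      rw [hG1, hG2, smul_mul_smul_comm]
    rw [this, smul_pow, ← Units.val_mul, ← Units.val_pow_eq_pow_val, hv, smul_smul]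
  rw [hpow n] at hG12
  obtain ⟨ρ, hρ⟩ : ∃ ρ : ℂ, ρ = (c1⁻¹ * c2⁻¹) ^ n * v := ⟨_, rfl⟩
  rw [← hρ] at hG12
  have hD0 : G2 - G1 = 0 := by
    by_contra hne
    have h3 : (1 - ρ) • (G2 - G1) = 0 := by
      have h4 := congrArg (fun M => M * (G2 - G1)) hG12
      simp only [add_mul, one_mul, smul_mul_assoc, hD, smul_zero, add_zero] at h4
      rw [sub_smul, one_smul, ← h4, sub_self]
    rcases smul_eq_zero.1 h3 with h4 | h4
    · have h5 : ρ = 1 := (sub_eq_zero.1 h4).symm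
      rw [h5, one_smul] at hG12
      have h6 : (n : ℂ) • (G2 - G1) = 0 := by
        have := hG12
        rwa [add_eq_left] at this
      rcases smul_eq_zero.1 h6 with h7 | h7
      · exact absurd (by exact_mod_cast h7) (Nat.pos_iff_ne_zero.1 hn)
      · exact hne h7
    · exact hne h4
  have hGG : G2 = G1 := sub_eq_zero.1 hD0
  rw [mem_cen]
  refine ⟨c2 * c1⁻¹, ?_⟩
  have hg2 : (g2 : Matrix (Fin 3) (Fin 3) ℂ) = (c2 * c1⁻¹) • (g1 : Matrix (Fin 3) (Fin 3) ℂ) := by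
    rw [mul_smul, ← hG1, ← hGG, hG2, smul_smul, mul_inv_cancel₀ hc2, one_smul]
  rw [Units.val_mul, hg2, mul_smul_comm, ← Units.val_mul, inv_mul_cancel, Units.val_one]

/-- a finite group has no involution or an odd number of involutions -/
theorem odd_involutions {H : Type*} [Group H] [Finite H] (h : ∃ x : H, x ^ 2 = 1 ∧ x ≠ 1) :
    Odd ({x : H | x ^ 2 = 1 ∧ x ≠ 1}.ncard) := by
  classical
  obtain ⟨x, hx, hx1⟩ := h
  let := Fintype.ofFinite H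
  have h2 : 2 ∣ Fintype.card H := by
    have : orderOf x = 2 := orderOf_eq_prime hx hx1
    rw [← this]
    exact orderOf_dvd_card
  obtain ⟨f, hfd⟩ : ∃ f : Function.End H, f = fun x : H => x⁻¹ := ⟨_, rfl⟩
  have hf : f ^ 2 ^ 1 = 1 := by
    rw [pow_one, sq]
    funext y
    rw [Function.End.mul_def, hfd]
    simp
    rfl
  have h3 := Equiv.Perm.card_fixedPoints_modEq (p := 2) (n := 1) hf
  subst hfd
  have h4 : Fintype.card (Function.fixedPoints (fun x : H => x⁻¹)) % 2 = 0 := by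
    rw [← Nat.dvd_iff_mod_eq_zero]
    exact (Nat.ModEq.dvd_iff h3 dvd_rfl).1 h2
  have h5 : (Function.fixedPoints (fun x : H => x⁻¹)).ncard = {x : H | x ^ 2 = 1 ∧ x ≠ 1}.ncard + 1 := by
    have : Function.fixedPoints (fun x : H => x⁻¹) = insert 1 {x : H | x ^ 2 = 1 ∧ x ≠ 1} := by
      ext y
      simp only [Function.mem_fixedPoints, Function.IsFixedPt, Set.mem_insert_iff, Set.mem_setOf_eq]
      constructor
      · intro hy
        by_cases hy1 : y = 1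
        · exact Or.inl hy1
        · refine Or.inr ⟨?_, hy1⟩
          rw [sq]
          nth_rewrite 1 [← hy]
          exact inv_mul_cancel y
      · rintro (rfl | ⟨hy, _⟩)
        · exact inv_one
        · rw [sq] at hy
          exact inv_eq_of_mul_eq_one_left hy
    rw [this, Set.ncard_insert_of_notMem (by simp) (Set.toFinite _)]
  rw [← Nat.card_coe_set_eq, Nat.card_eq_fintype_card] at h5
  rw [Nat.odd_iff]
  omega

/-- the set of the axes of the involutions of `K` -/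
def axes (K : Subgroup (GL (Fin 3) ℂ ⧸ Subgroup.center (GL (Fin 3) ℂ))) : Set (Submodule ℂ (Fin 3 → ℂ)) :=
  {ℓ : Submodule ℂ (Fin 3 → ℂ) | Module.finrank ℂ ℓ = 2 ∧
        ∃ g : GL (Fin 3) ℂ,
          (QuotientGroup.mk g : GL (Fin 3) ℂ ⧸ Subgroup.center (GL (Fin 3) ℂ)) ∈ K ∧
          g ^ 2 ∈ Subgroup.center (GL (Fin 3) ℂ) ∧
          g ∉ Subgroup.center (GL (Fin 3) ℂ) ∧
          ∃ c : ℂ, ∀ x ∈ ℓ, (g : Matrix (Fin 3) (Fin 3) ℂ) *ᵥ x = c • x}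

theorem axes_odd (K : Subgroup (GL (Fin 3) ℂ ⧸ Subgroup.center (GL (Fin 3) ℂ))) [Finite K] (hne : (axes K).Nonempty) :
    Odd (axes K).ncard := by
  classical
  -- the correspondence between involutions and axes
  have hmk1 : ∀ g : GL (Fin 3) ℂ, (QuotientGroup.mk g : GL (Fin 3) ℂ ⧸ Subgroup.center (GL (Fin 3) ℂ)) = 1 ↔
      g ∈ Subgroup.center (GL (Fin 3) ℂ) := fun g => QuotientGroup.eq_one_iff g
  have hns : ∀ g : GL (Fin 3) ℂ, g ∉ Subgroup.center (GL (Fin 3) ℂ) → ∀ a : ℂ, (g : Matrix (Fin 3) (Fin 3) ℂ) ≠ a • 1 :=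
    fun g hg a ha => hg (mem_cen.2 ⟨a, ha⟩)
  have ex : ∀ x : {x : K | x ^ 2 = 1 ∧ x ≠ 1}, ∃ l : Submodule ℂ (Fin 3 → ℂ), Module.finrank ℂ l = 2 ∧
      ∃ g : GL (Fin 3) ℂ, (QuotientGroup.mk g : GL (Fin 3) ℂ ⧸ Subgroup.center (GL (Fin 3) ℂ)) = (x : K) ∧
        g ^ 2 ∈ Subgroup.center (GL (Fin 3) ℂ) ∧ g ∉ Subgroup.center (GL (Fin 3) ℂ) ∧
        ∃ c : ℂ, ∀ y ∈ l, (g : Matrix (Fin 3) (Fin 3) ℂ) *ᵥ y = c • y := by
    rintro ⟨⟨x, hxK⟩, hx2, hx1⟩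
    obtain ⟨g, rfl⟩ := QuotientGroup.mk_surjective x
    have hg2 : g ^ 2 ∈ Subgroup.center (GL (Fin 3) ℂ) := by
      rw [← hmk1]
      exact congrArg Subtype.val hx2
    have hg1 : g ∉ Subgroup.center (GL (Fin 3) ℂ) := by
      rw [← hmk1]
      intro h
      exact hx1 (Subtype.ext h)
    obtain ⟨l, hl, hc⟩ := exists_axis hg2 hg1
    exact ⟨l, hl, g, rfl, hg2, hg1, hc⟩
  choose ax hax2 rep hrep hrep2 hrep1 sc hsc using ex
  have hinj : Function.Injective ax := by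
    intro x y hxy
    have h1 := same_axis (n := Nat.card K) (hrep2 x) (hrep2 y) (hrep1 x) (hrep1 y) (hax2 x) (hsc x)
      (by rw [hxy]; exact hsc y) Nat.card_pos (by
        rw [← hmk1]
        have : (QuotientGroup.mk ((rep x * rep y) ^ Nat.card K) : GL (Fin 3) ℂ ⧸ Subgroup.center (GL (Fin 3) ℂ)) =
            (((x : K) * (y : K) : K) ^ Nat.card K : K) := by
          rw [QuotientGroup.mk_pow, QuotientGroup.mk_mul, hrep x, hrep y]
          push_cast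
          rfl
        rw [this, pow_card_eq_one']
        rfl)
    have h2 : (QuotientGroup.mk (rep x) : GL (Fin 3) ℂ ⧸ Subgroup.center (GL (Fin 3) ℂ)) = QuotientGroup.mk (rep y) :=
      QuotientGroup.eq.2 h1
    rw [hrep x, hrep y] at h2
    exact Subtype.ext (Subtype.ext h2)
  have hrange : axes K = Set.range ax := by
    ext l
    constructor
    · rintro ⟨hl, g, hgK, hg2, hg1, c, hc⟩
      refine ⟨⟨⟨QuotientGroup.mk g, hgK⟩, ?_, ?_⟩, ?_⟩
      · apply Subtype.ext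
        exact (hmk1 (g ^ 2)).2 hg2
      · intro h
        exact hg1 ((hmk1 g).1 (congrArg Subtype.val h))
      · generalize hX : (⟨⟨QuotientGroup.mk g, hgK⟩, _⟩ : {x : K | x ^ 2 = 1 ∧ x ≠ 1}) = X
        have hr := hrep X
        have hr2 : (QuotientGroup.mk (rep X) : GL (Fin 3) ℂ ⧸ Subgroup.center (GL (Fin 3) ℂ)) = QuotientGroup.mk g := by
          rw [hr, ← hX]
        have hr3 := QuotientGroup.eq.1 hr2
        obtain ⟨μ, hμ⟩ := mem_cen.1 hr3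
        have hg : (g : Matrix (Fin 3) (Fin 3) ℂ) = μ • (rep X : Matrix (Fin 3) (Fin 3) ℂ) := by
          have : g = rep X * ((rep X)⁻¹ * g) := by group
          rw [this, Units.val_mul, hμ, mul_smul_comm, mul_one]
        exact axis_unique (hns g hg1) (hax2 X) (c := μ * sc X)
          (fun x hx => by rw [hg, Matrix.smul_mulVec, hsc X x hx, smul_smul]) hl hc
    · rintro ⟨x, rfl⟩
      exact ⟨hax2 x, rep x, by rw [hrep x]; exact (x : K).2, hrep2 x, hrep1 x, sc x, hsc x⟩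
  have hcard : (axes K).ncard = ({x : K | x ^ 2 = 1 ∧ x ≠ 1}).ncard := by
    rw [hrange, ← Nat.card_coe_set_eq, Nat.card_range_of_injective hinj, Nat.card_coe_set_eq]
  rw [hcard]
  apply odd_involutions
  obtain ⟨l, hl⟩ := hne
  rw [hrange] at hl
  obtain ⟨x, _⟩ := hl
  exact ⟨x, x.2⟩

end SG22
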