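import Mathlib

/-!
# SG22: lines of the projective plane as kernels of linear forms
-/

set_option autoImplicit false

namespace SG22

/-- the linear form with coefficients `v` -/
noncomputable def form (v : Fin 3 → ℂ) : (Fin 3 → ℂ) →ₗ[ℂ] ℂ :=
  v 0 • LinearMap.proj 0 + v 1 • LinearMap.proj 1 + v 2 • LinearMap.proj 2

theorem form_apply (v x : Fin 3 → ℂ) : form v x = v 0 * x 0 + v 1 * x 1 + v 2 * x 2 := by
  simp [form]

/-- the line (a plane of `ℂ³`) with coefficients `v` -/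
noncomputable def lin (v : Fin 3 → ℂ) : Submodule ℂ (Fin 3 → ℂ) := LinearMap.ker (form v)

theorem mem_lin {v x : Fin 3 → ℂ} : x ∈ lin v ↔ v 0 * x 0 + v 1 * x 1 + v 2 * x 2 = 0 := by
  rw [lin, LinearMap.mem_ker, form_apply]

theorem form_ne_zero {v : Fin 3 → ℂ} (hv : ∃ i, v i ≠ 0) : form v ≠ 0 := by
  obtain ⟨i, hi⟩ := hv
  intro h
  apply hi
  have h1 : form v (Pi.single i 1) = 0 := by rw [h]; rfl
  rw [form_apply] at h1
  fin_cases i <;> simpa using h1

theorem finrank_lin {v : Fin 3 → ℂ} (hv : ∃ i, v i ≠ 0) : Module.finrank ℂ (lin v) = 2 := by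
  have h := Module.Dual.finrank_ker_add_one_of_ne_zero (f := (form v : Module.Dual ℂ (Fin 3 → ℂ))) (form_ne_zero hv)
  have h3 : Module.finrank ℂ (Fin 3 → ℂ) = 3 := by simp
  rw [h3] at h
  have : Module.finrank ℂ (lin v) + 1 = 3 := h
  omega

/-- a plane contained in `lin v` is `lin v` -/
theorem eq_lin {v : Fin 3 → ℂ} (hv : ∃ i, v i ≠ 0) {l : Submodule ℂ (Fin 3 → ℂ)} (hl : Module.finrank ℂ l = 2)
    (h : l ≤ lin v) : l = lin v := by
  apply Submodule.eq_of_le_of_finrank_eq h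
  rw [hl, finrank_lin hv]

end SG22
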