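import Pool.Agent.H55.SG.Tab

/-!
# SG22: the 69 intersection points of the 22 lines

`wts` lists a vector for each intersection point, `incs` the lines through it, `lineOfs` the point common to two lines.
-/

set_option autoImplicit false

namespace SG22

open R

def wts : List (R × R × R) := [
  (⟨1, 0, 0, 0⟩, ⟨0, 0, 0, 0⟩, ⟨0, 0, 0, 0⟩),
  (⟨0, 0, 0, 0⟩, ⟨1, 0, 0, 0⟩, ⟨0, -1, -1, 0⟩),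
  (⟨0, 0, 0, 0⟩, ⟨1, 0, 0, 0⟩, ⟨0, -1, 1, 0⟩),
  (⟨0, 0, 0, 0⟩, ⟨1, 0, 0, 0⟩, ⟨0, 1, -1, 0⟩),
  (⟨0, 0, 0, 0⟩, ⟨1, 0, 0, 0⟩, ⟨0, 1, 1, 0⟩),
  (⟨0, 1, -1, 0⟩, ⟨0, 0, 0, 0⟩, ⟨-1, 0, 0, 0⟩),
  (⟨1, 0, 0, 0⟩, ⟨0, 0, 0, 0⟩, ⟨-1, 0, 0, 0⟩),
  (⟨0, 0, 0, 1⟩, ⟨0, 0, 0, 0⟩, ⟨-1, 0, 0, 0⟩),
  (⟨0, -1, 1, 0⟩, ⟨0, 0, 0, 0⟩, ⟨-1, 0, 0, 0⟩),
  (⟨-1, 1, 1, -1⟩, ⟨0, 0, 0, 0⟩, ⟨-1, 0, 0, 0⟩),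
  (⟨-1, 0, 0, 0⟩, ⟨0, 0, 0, 0⟩, ⟨-1, 0, 0, 0⟩),
  (⟨1, -1, -1, 1⟩, ⟨0, 0, 0, 0⟩, ⟨-1, 0, 0, 0⟩),
  (⟨0, 0, 0, -1⟩, ⟨0, 0, 0, 0⟩, ⟨-1, 0, 0, 0⟩),
  (⟨-1, 0, 0, 0⟩, ⟨1, 0, 0, 0⟩, ⟨0, 0, 0, 0⟩),
  (⟨0, -1, 1, 0⟩, ⟨1, 0, 0, 0⟩, ⟨0, 0, 0, 0⟩),
  (⟨-1, 1, 1, -1⟩, ⟨1, 0, 0, 0⟩, ⟨0, 0, 0, 0⟩),
  (⟨0, 0, 0, -1⟩, ⟨1, 0, 0, 0⟩, ⟨0, 0, 0, 0⟩),
  (⟨1, -1, -1, 1⟩, ⟨1, 0, 0, 0⟩, ⟨0, 0, 0, 0⟩),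
  (⟨1, 0, 0, 0⟩, ⟨1, 0, 0, 0⟩, ⟨0, 0, 0, 0⟩),
  (⟨0, 1, -1, 0⟩, ⟨1, 0, 0, 0⟩, ⟨0, 0, 0, 0⟩),
  (⟨0, 0, 0, 1⟩, ⟨1, 0, 0, 0⟩, ⟨0, 0, 0, 0⟩),
  (⟨-1, 1, -1, 0⟩, ⟨1, 0, 0, 0⟩, ⟨-1, 0, 0, 0⟩),
  (⟨1, -1, 1, 0⟩, ⟨1, 0, 0, 0⟩, ⟨-1, 0, 0, 0⟩),
  (⟨-1, 1, 1, 0⟩, ⟨1, 0, 0, 0⟩, ⟨-1, 0, 0, 0⟩),
  (⟨-1, -1, 1, 0⟩, ⟨1, 0, 0, 0⟩, ⟨-1, 0, 0, 0⟩),
  (⟨-1, 1, 1, -2⟩, ⟨1, 0, 0, 0⟩, ⟨-1, 0, 0, 0⟩),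
  (⟨1, -1, -1, 2⟩, ⟨1, 0, 0, 0⟩, ⟨-1, 0, 0, 0⟩),
  (⟨1, -1, -1, 0⟩, ⟨1, 0, 0, 0⟩, ⟨-1, 0, 0, 0⟩),
  (⟨1, 1, -1, 0⟩, ⟨1, 0, 0, 0⟩, ⟨-1, 0, 0, 0⟩),
  (⟨1, 1, -1, 0⟩, ⟨-1, 0, 0, 0⟩, ⟨-1, 0, 0, 0⟩),
  (⟨1, -1, -1, 2⟩, ⟨-1, 0, 0, 0⟩, ⟨-1, 0, 0, 0⟩),
  (⟨1, -1, 1, 0⟩, ⟨-1, 0, 0, 0⟩, ⟨-1, 0, 0, 0⟩),
  (⟨-1, 1, 1, 0⟩, ⟨-1, 0, 0, 0⟩, ⟨-1, 0, 0, 0⟩),
  (⟨-1, 1, -1, 0⟩, ⟨-1, 0, 0, 0⟩, ⟨-1, 0, 0, 0⟩),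
  (⟨-1, -1, 1, 0⟩, ⟨-1, 0, 0, 0⟩, ⟨-1, 0, 0, 0⟩),
  (⟨-1, 1, 1, -2⟩, ⟨-1, 0, 0, 0⟩, ⟨-1, 0, 0, 0⟩),
  (⟨1, -1, -1, 0⟩, ⟨-1, 0, 0, 0⟩, ⟨-1, 0, 0, 0⟩),
  (⟨0, 1, -1, -1⟩, ⟨0, 0, 0, 1⟩, ⟨-1, 0, 0, 0⟩),
  (⟨0, -1, 1, -1⟩, ⟨1, 0, 0, 0⟩, ⟨0, 0, 0, 1⟩),
  (⟨0, -1, 1, 1⟩, ⟨0, 0, 0, 1⟩, ⟨-1, 0, 0, 0⟩),
  (⟨0, -1, 1, -1⟩, ⟨0, 0, 0, 1⟩, ⟨-1, 0, 0, 0⟩),
  (⟨0, 1, 1, -1⟩, ⟨0, 0, 0, 1⟩, ⟨-1, 0, 0, 0⟩),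
  (⟨0, 1, -1, 1⟩, ⟨0, 0, 0, 1⟩, ⟨-1, 0, 0, 0⟩),
  (⟨0, -1, -1, 1⟩, ⟨0, 0, 0, 1⟩, ⟨-1, 0, 0, 0⟩),
  (⟨0, 1, -1, 1⟩, ⟨1, 0, 0, 0⟩, ⟨0, 0, 0, 1⟩),
  (⟨0, 1, -1, 1⟩, ⟨0, 0, 0, -1⟩, ⟨-1, 0, 0, 0⟩),
  (⟨0, 1, 1, -1⟩, ⟨0, 0, 0, -1⟩, ⟨-1, 0, 0, 0⟩),
  (⟨0, -1, 1, 1⟩, ⟨0, 0, 0, -1⟩, ⟨-1, 0, 0, 0⟩),
  (⟨0, -1, 1, -1⟩, ⟨1, 0, 0, 0⟩, ⟨0, 0, 0, -1⟩),
  (⟨0, -1, -1, 1⟩, ⟨0, 0, 0, -1⟩, ⟨-1, 0, 0, 0⟩),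
  (⟨0, -1, 1, -1⟩, ⟨0, 0, 0, -1⟩, ⟨-1, 0, 0, 0⟩),
  (⟨0, 1, -1, -1⟩, ⟨0, 0, 0, -1⟩, ⟨-1, 0, 0, 0⟩),
  (⟨0, 1, -1, 1⟩, ⟨1, 0, 0, 0⟩, ⟨0, 0, 0, -1⟩),
  (⟨1, 0, 0, -1⟩, ⟨-1, -1, 1, 1⟩, ⟨1, 0, 0, 0⟩),
  (⟨-1, 0, 0, -1⟩, ⟨1, 0, 0, 0⟩, ⟨-1, -1, 1, 1⟩),
  (⟨-1, 0, 0, 1⟩, ⟨1, 0, 0, 0⟩, ⟨1, 1, -1, -1⟩),
  (⟨-1, 0, 0, -1⟩, ⟨-1, -1, 1, 1⟩, ⟨1, 0, 0, 0⟩),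
  (⟨-1, 0, 0, 1⟩, ⟨1, 1, -1, -1⟩, ⟨1, 0, 0, 0⟩),
  (⟨1, 0, 0, -1⟩, ⟨1, 0, 0, 0⟩, ⟨-1, -1, 1, 1⟩),
  (⟨-1, 0, 0, -1⟩, ⟨1, 0, 0, 0⟩, ⟨1, 1, -1, -1⟩),
  (⟨1, 0, 0, -1⟩, ⟨1, 1, -1, -1⟩, ⟨1, 0, 0, 0⟩),
  (⟨-1, 0, 0, 1⟩, ⟨1, 0, 0, 0⟩, ⟨-1, -1, 1, 1⟩),
  (⟨1, 0, 0, 1⟩, ⟨-1, -1, 1, 1⟩, ⟨1, 0, 0, 0⟩),
  (⟨-1, 0, 0, -1⟩, ⟨1, 1, -1, -1⟩, ⟨1, 0, 0, 0⟩),
  (⟨1, 0, 0, 1⟩, ⟨1, 0, 0, 0⟩, ⟨-1, -1, 1, 1⟩),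
  (⟨1, 0, 0, -1⟩, ⟨1, 0, 0, 0⟩, ⟨1, 1, -1, -1⟩),
  (⟨1, 0, 0, 1⟩, ⟨1, 1, -1, -1⟩, ⟨1, 0, 0, 0⟩),
  (⟨-1, 0, 0, 1⟩, ⟨-1, -1, 1, 1⟩, ⟨1, 0, 0, 0⟩),
  (⟨1, 0, 0, 1⟩, ⟨1, 0, 0, 0⟩, ⟨1, 1, -1, -1⟩)]

def incs : List (List ℕ) := [
  [0, 1, 2, 3, 4, 5],
  [6, 10, 14, 18],
  [7, 11, 15, 19],
  [8, 12, 16, 20],
  [9, 13, 17, 21],
  [0, 6, 17],
  [0, 7, 20],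
  [0, 8, 11],
  [0, 9, 14],
  [0, 10, 21],
  [0, 12, 15],
  [0, 13, 18],
  [0, 16, 19],
  [1, 6, 9],
  [1, 7, 12],
  [1, 8, 19],
  [1, 10, 13],
  [1, 11, 16],
  [1, 14, 17],
  [1, 15, 20],
  [1, 18, 21],
  [2, 6, 15],
  [2, 7, 14],
  [2, 8, 21],
  [2, 9, 12],
  [2, 10, 19],
  [2, 11, 18],
  [2, 13, 16],
  [2, 17, 20],
  [3, 6, 7],
  [3, 8, 13],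
  [3, 9, 20],
  [3, 10, 11],
  [3, 12, 17],
  [3, 14, 15],
  [3, 16, 21],
  [3, 18, 19],
  [4, 6, 16],
  [4, 7, 13],
  [4, 8, 14],
  [4, 9, 19],
  [4, 10, 20],
  [4, 11, 17],
  [4, 12, 18],
  [4, 15, 21],
  [5, 6, 8],
  [5, 7, 21],
  [5, 9, 11],
  [5, 10, 12],
  [5, 13, 15],
  [5, 14, 16],
  [5, 17, 19],
  [5, 18, 20],
  [6, 11, 12],
  [6, 13, 19],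
  [6, 20, 21],
  [7, 8, 18],
  [7, 9, 16],
  [7, 10, 17],
  [8, 9, 10],
  [8, 15, 17],
  [9, 15, 18],
  [10, 15, 16],
  [11, 13, 20],
  [11, 14, 21],
  [12, 13, 14],
  [12, 19, 21],
  [14, 19, 20],
  [16, 17, 18]]

def lineOfs : List (List ℕ) := [
  [0, 0, 0, 0, 0, 0, 5, 6, 7, 8, 9, 7, 10, 11, 8, 10, 12, 5, 11, 12, 6, 9],
  [0, 0, 0, 0, 0, 0, 13, 14, 15, 13, 16, 17, 14, 16, 18, 19, 17, 18, 20, 15, 19, 20],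
  [0, 0, 0, 0, 0, 0, 21, 22, 23, 24, 25, 26, 24, 27, 22, 21, 27, 28, 26, 25, 28, 23],
  [0, 0, 0, 0, 0, 0, 29, 29, 30, 31, 32, 32, 33, 30, 34, 34, 35, 33, 36, 36, 31, 35],
  [0, 0, 0, 0, 0, 0, 37, 38, 39, 40, 41, 42, 43, 38, 39, 44, 37, 42, 43, 40, 41, 44],
  [0, 0, 0, 0, 0, 0, 45, 46, 45, 47, 48, 47, 48, 49, 50, 49, 50, 51, 52, 51, 52, 46],
  [5, 13, 21, 29, 37, 45, 0, 29, 45, 13, 1, 53, 53, 54, 1, 21, 37, 5, 1, 54, 55, 55],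
  [6, 14, 22, 29, 38, 46, 29, 0, 56, 57, 58, 2, 14, 38, 22, 2, 57, 58, 56, 2, 6, 46],
  [7, 15, 23, 30, 39, 45, 45, 56, 0, 59, 59, 7, 3, 30, 39, 60, 3, 60, 56, 15, 3, 23],
  [8, 13, 24, 31, 40, 47, 13, 57, 59, 0, 59, 47, 24, 4, 8, 61, 57, 4, 61, 40, 31, 4],
  [9, 16, 25, 32, 41, 48, 1, 58, 59, 59, 0, 32, 48, 16, 1, 62, 62, 58, 1, 25, 41, 9],
  [7, 17, 26, 32, 42, 47, 53, 2, 7, 47, 32, 0, 53, 63, 64, 2, 17, 42, 26, 2, 63, 64],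
  [10, 14, 24, 33, 43, 48, 53, 14, 3, 24, 48, 53, 0, 65, 65, 10, 3, 33, 43, 66, 3, 66],
  [11, 16, 27, 30, 38, 49, 54, 38, 30, 4, 16, 63, 65, 0, 65, 49, 27, 4, 11, 54, 63, 4],
  [8, 18, 22, 34, 39, 50, 1, 22, 39, 8, 1, 64, 65, 65, 0, 34, 50, 18, 1, 67, 67, 64],
  [10, 19, 21, 34, 44, 49, 21, 2, 60, 61, 62, 2, 10, 49, 34, 0, 62, 60, 61, 2, 19, 44],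
  [12, 17, 27, 35, 37, 50, 37, 57, 3, 57, 62, 17, 3, 27, 50, 62, 0, 68, 68, 12, 3, 35],
  [5, 18, 28, 33, 42, 51, 5, 58, 60, 4, 58, 42, 33, 4, 18, 60, 68, 0, 68, 51, 28, 4],
  [11, 20, 26, 36, 43, 52, 1, 56, 56, 61, 1, 26, 43, 11, 1, 61, 68, 68, 0, 36, 52, 20],
  [12, 15, 25, 36, 40, 51, 54, 2, 15, 40, 25, 2, 66, 54, 67, 2, 12, 51, 36, 0, 67, 66],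
  [6, 19, 28, 31, 41, 52, 55, 6, 3, 31, 41, 63, 3, 63, 67, 19, 3, 28, 52, 67, 0, 55],
  [9, 20, 23, 35, 44, 46, 55, 46, 23, 4, 9, 64, 66, 4, 64, 44, 35, 4, 20, 66, 55, 0]]

def wt (L : Fin 69) : R × R × R := wts.getD L.val (⟨0, 0, 0, 0⟩, ⟨0, 0, 0, 0⟩, ⟨0, 0, 0, 0⟩)

/-- the line `i` passes through the point `L` -/
def memb (i : Fin 22) (L : Fin 69) : Bool := (incs.getD L.val []).contains i.val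

/-- the common point of two lines -/
def lineOf (i j : Fin 22) : ℕ := (lineOfs.getD i.val []).getD j.val 0

/-- the value of the linear form -/
def dot3 (x y : R × R × R) : R := add (add (mul x.1 y.1) (mul x.2.1 y.2.1)) (mul x.2.2 y.2.2)

def okInc (L : Fin 69) (i : Fin 22) : Bool :=
  if memb i L then (dot3 (pt i) (wt L)).isZero else (dot3 (pt i) (wt L)).nz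

def okLine (i j : Fin 22) : Bool :=
  i == j || (if h : lineOf i j < 69 then memb i ⟨lineOf i j, h⟩ && memb j ⟨lineOf i j, h⟩ else false)

def okUniq (L : Fin 69) : Bool :=
  (incs.getD L.val []).all fun i => (incs.getD L.val []).all fun j => i == j ||
    ((lineOfs.getD i []).getD j 0 == L.val)

def okTwo (L : Fin 69) : Bool :=
  (List.finRange 22).any fun i => (List.finRange 22).any fun j => !(i == j) && memb i L && memb j L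

def okOut (L : Fin 69) : Bool := (List.finRange 22).any fun i => !(memb i L)

/-- the number of lines through the point `L` -/
def cnt (L : Fin 69) : ℕ := (Finset.univ.filter fun i : Fin 22 => memb i L = true).card

theorem okInc_all : ∀ L : Fin 69, ∀ i : Fin 22, okInc L i = true := by decide +kernel

theorem okLine_all : ∀ i j : Fin 22, okLine i j = true := by decide +kernel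

theorem okUniq_all : ∀ L : Fin 69, okUniq L = true := by decide +kernel

theorem okTwo_all : ∀ L : Fin 69, okTwo L = true := by decide +kernel

theorem okOut_all : ∀ L : Fin 69, okOut L = true := by decide +kernel

theorem cnt3 : (Finset.univ.filter fun L : Fin 69 => cnt L = 3).card = 64 := by decide +kernel

theorem cnt4 : (Finset.univ.filter fun L : Fin 69 => cnt L = 4).card = 4 := by decide +kernel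

theorem cnt6 : (Finset.univ.filter fun L : Fin 69 => cnt L = 6).card = 1 := by decide +kernel

theorem cnt_all : ∀ L : Fin 69, cnt L = 3 ∨ cnt L = 4 ∨ cnt L = 6 := by decide +kernel

end SG22
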