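import Pool.Agent.H55.SG.Lin

/-!
# SG22: the 22 lines, arithmetic in `ℤ[ζ₁₂]`

The vectors are the 6 points `(0 : 1 : 0), (0 : 0 : 1), (0 : 1 : ±1), (0 : 1 : ±i)` and the 16 points `(1 : i^k w)`,
`w ∈ {(1, c), (c, 1), (-i c, i), (1, -c)}`, `c = ζ - ζ²`.
-/

set_option autoImplicit false

namespace SG22

/-- `a + b ζ + c ζ² + d ζ³` with `ζ⁴ = ζ² - 1` -/
structure R where
  a : ℤ
  b : ℤ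
  c : ℤ
  d : ℤ
deriving DecidableEq

namespace R

def mul (x y : R) : R :=
  ⟨x.a * y.a - (x.b * y.d + x.c * y.c + x.d * y.b) - x.d * y.d,
   x.a * y.b + x.b * y.a - (x.c * y.d + x.d * y.c),
   x.a * y.c + x.b * y.b + x.c * y.a + (x.b * y.d + x.c * y.c + x.d * y.b),
   x.a * y.d + x.b * y.c + x.c * y.b + x.d * y.a + (x.c * y.d + x.d * y.c)⟩

def sub (x y : R) : R := ⟨x.a - y.a, x.b - y.b, x.c - y.c, x.d - y.d⟩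

def add (x y : R) : R := ⟨x.a + y.a, x.b + y.b, x.c + y.c, x.d + y.d⟩

def isZero (x : R) : Bool := x.a == 0 && x.b == 0 && x.c == 0 && x.d == 0

def conj5 (x : R) : R := ⟨x.a + x.c, -x.b, -x.c, x.b + x.d⟩
def conj7 (x : R) : R := ⟨x.a, -x.b, x.c, -x.d⟩
def conj11 (x : R) : R := ⟨x.a + x.c, x.b, -x.c, -x.b - x.d⟩

/-- the norm of `x` is a nonzero integer -/
def nz (x : R) : Bool :=
  let m := mul x (mul (conj5 x) (mul (conj7 x) (conj11 x)))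
  m.a != 0 && m.b == 0 && m.c == 0 && m.d == 0

end R

open R

/-- a primitive 12-th root of unity -/
noncomputable def zt : ℂ := (((Real.sqrt 3 : ℝ) : ℂ) + Complex.I) / 2

theorem zt4 : zt ^ 4 = zt ^ 2 - 1 := by
  have hs : ((Real.sqrt 3 : ℝ) : ℂ) ^ 2 = 3 := by
    rw [← Complex.ofReal_pow, Real.sq_sqrt (by norm_num)]
    norm_num
  have hI : Complex.I ^ 2 = -1 := Complex.I_sq
  unfold zt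
  generalize ((Real.sqrt 3 : ℝ) : ℂ) = s at hs ⊢
  generalize Complex.I = t at hI ⊢
  have hu : (s + t) ^ 2 = 2 + 2 * s * t := by linear_combination hs + hI
  have hu2 : (2 + 2 * s * t) ^ 2 = -8 + 8 * s * t := by linear_combination 4 * t ^ 2 * hs + 12 * hI
  have h1 : ((s + t) / 2) ^ 4 = ((s + t) ^ 2) ^ 2 / 16 := by ring
  have h2 : ((s + t) / 2) ^ 2 = (s + t) ^ 2 / 4 := by ring
  rw [h1, h2, hu, hu2]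
  ring

noncomputable def ph (x : R) : ℂ := x.a + x.b * zt + x.c * zt ^ 2 + x.d * zt ^ 3

theorem ph_mul (x y : R) : ph (mul x y) = ph x * ph y := by
  simp only [ph, mul]
  push_cast
  linear_combination (-((x.b : ℂ) * y.d + x.c * y.c + x.d * y.b + (x.c * y.d + x.d * y.c) * zt + x.d * y.d * (zt ^ 2 + 1))) * zt4

theorem ph_sub (x y : R) : ph (sub x y) = ph x - ph y := by
  simp only [ph, sub]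
  push_cast
  ring

theorem ph_add (x y : R) : ph (add x y) = ph x + ph y := by
  simp only [ph, add]
  push_cast
  ring

theorem ph_zero {x : R} (h : x.isZero = true) : ph x = 0 := by
  simp only [isZero, Bool.and_eq_true, beq_iff_eq] at h
  obtain ⟨⟨⟨h1, h2⟩, h3⟩, h4⟩ := h
  simp [ph, h1, h2, h3, h4]

theorem ph_ne {x : R} (h : x.nz = true) : ph x ≠ 0 := by
  intro h0
  simp only [nz, Bool.and_eq_true, beq_iff_eq, bne_iff_ne] at h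
  obtain ⟨⟨⟨h1, h2⟩, h3⟩, h4⟩ := h
  have h5 := ph_mul x (mul (conj5 x) (mul (conj7 x) (conj11 x)))
  rw [h0, zero_mul] at h5
  simp only [ph, h2, h3, h4] at h5
  apply h1
  have : (((mul x (mul (conj5 x) (mul (conj7 x) (conj11 x)))).a : ℤ) : ℂ) = 0 := by
    linear_combination h5
  exact_mod_cast this

/-! ### the table -/

def pts : List (R × R × R) := [
  (⟨0, 0, 0, 0⟩, ⟨1, 0, 0, 0⟩, ⟨0, 0, 0, 0⟩),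
  (⟨0, 0, 0, 0⟩, ⟨0, 0, 0, 0⟩, ⟨1, 0, 0, 0⟩),
  (⟨0, 0, 0, 0⟩, ⟨1, 0, 0, 0⟩, ⟨1, 0, 0, 0⟩),
  (⟨0, 0, 0, 0⟩, ⟨1, 0, 0, 0⟩, ⟨-1, 0, 0, 0⟩),
  (⟨0, 0, 0, 0⟩, ⟨1, 0, 0, 0⟩, ⟨0, 0, 0, 1⟩),
  (⟨0, 0, 0, 0⟩, ⟨1, 0, 0, 0⟩, ⟨0, 0, 0, -1⟩),
  (⟨1, 0, 0, 0⟩, ⟨1, 0, 0, 0⟩, ⟨0, 1, -1, 0⟩),
  (⟨1, 0, 0, 0⟩, ⟨0, 1, -1, 0⟩, ⟨1, 0, 0, 0⟩),
  (⟨1, 0, 0, 0⟩, ⟨1, -1, -1, 1⟩, ⟨0, 0, 0, 1⟩),
  (⟨1, 0, 0, 0⟩, ⟨1, 0, 0, 0⟩, ⟨0, -1, 1, 0⟩),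
  (⟨1, 0, 0, 0⟩, ⟨0, 0, 0, 1⟩, ⟨-1, 1, 1, -1⟩),
  (⟨1, 0, 0, 0⟩, ⟨-1, 1, 1, -1⟩, ⟨0, 0, 0, 1⟩),
  (⟨1, 0, 0, 0⟩, ⟨0, 1, -1, 0⟩, ⟨-1, 0, 0, 0⟩),
  (⟨1, 0, 0, 0⟩, ⟨0, 0, 0, 1⟩, ⟨1, -1, -1, 1⟩),
  (⟨1, 0, 0, 0⟩, ⟨-1, 0, 0, 0⟩, ⟨0, -1, 1, 0⟩),
  (⟨1, 0, 0, 0⟩, ⟨0, -1, 1, 0⟩, ⟨-1, 0, 0, 0⟩),
  (⟨1, 0, 0, 0⟩, ⟨-1, 1, 1, -1⟩, ⟨0, 0, 0, -1⟩),
  (⟨1, 0, 0, 0⟩, ⟨-1, 0, 0, 0⟩, ⟨0, 1, -1, 0⟩),
  (⟨1, 0, 0, 0⟩, ⟨0, 0, 0, -1⟩, ⟨1, -1, -1, 1⟩),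
  (⟨1, 0, 0, 0⟩, ⟨1, -1, -1, 1⟩, ⟨0, 0, 0, -1⟩),
  (⟨1, 0, 0, 0⟩, ⟨0, -1, 1, 0⟩, ⟨1, 0, 0, 0⟩),
  (⟨1, 0, 0, 0⟩, ⟨0, 0, 0, -1⟩, ⟨-1, 1, 1, -1⟩)]

def thirds : List (List ℕ) := [
  [0, 2, 1, 1, 1, 1, 17, 20, 11, 14, 21, 8, 15, 18, 9, 12, 19, 6, 13, 16, 7, 10],
  [2, 0, 0, 0, 0, 0, 9, 12, 19, 6, 13, 16, 7, 10, 17, 20, 11, 14, 21, 8, 15, 18],
  [1, 0, 0, 0, 0, 0, 15, 14, 21, 12, 19, 18, 9, 16, 7, 6, 13, 20, 11, 10, 17, 8],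
  [1, 0, 0, 0, 0, 0, 7, 6, 13, 20, 11, 10, 17, 8, 15, 14, 21, 12, 19, 18, 9, 16],
  [1, 0, 0, 0, 0, 0, 16, 13, 14, 19, 20, 17, 18, 7, 8, 21, 6, 11, 12, 9, 10, 15],
  [1, 0, 0, 0, 0, 0, 8, 21, 6, 11, 12, 9, 10, 15, 16, 13, 14, 19, 20, 17, 18, 7],
  [17, 9, 15, 7, 16, 8, 0, 3, 5, 1, 14, 12, 11, 19, 10, 2, 4, 0, 10, 13, 21, 20],
  [20, 12, 14, 6, 13, 21, 3, 0, 18, 16, 17, 15, 1, 4, 2, 11, 9, 10, 8, 11, 0, 5],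
  [11, 19, 21, 13, 14, 6, 5, 18, 0, 10, 9, 0, 16, 3, 4, 17, 12, 15, 7, 1, 12, 2],
  [14, 6, 12, 20, 19, 11, 1, 16, 10, 0, 8, 5, 2, 17, 0, 18, 7, 13, 15, 4, 3, 13],
  [21, 13, 19, 11, 20, 12, 14, 17, 9, 8, 0, 3, 5, 1, 6, 16, 15, 7, 6, 2, 4, 0],
  [8, 16, 18, 10, 17, 9, 12, 15, 0, 5, 3, 0, 6, 20, 21, 7, 1, 4, 2, 7, 13, 14],
  [15, 7, 9, 17, 18, 10, 11, 1, 16, 2, 5, 6, 0, 14, 13, 0, 8, 3, 4, 21, 8, 19],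
  [18, 10, 16, 8, 7, 15, 19, 4, 3, 17, 1, 20, 14, 0, 12, 5, 2, 9, 0, 6, 11, 9],
  [9, 17, 7, 15, 8, 16, 10, 2, 4, 0, 6, 21, 13, 12, 0, 3, 5, 1, 6, 20, 19, 11],
  [12, 20, 6, 14, 21, 13, 2, 11, 17, 18, 16, 7, 0, 5, 3, 0, 10, 8, 9, 7, 1, 4],
  [19, 11, 13, 21, 6, 14, 4, 9, 12, 7, 15, 1, 8, 2, 5, 10, 0, 18, 17, 0, 8, 3],
  [6, 14, 20, 12, 11, 19, 0, 10, 15, 13, 7, 4, 3, 9, 1, 8, 18, 0, 16, 5, 2, 9],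
  [13, 21, 11, 19, 12, 20, 10, 8, 7, 15, 6, 2, 4, 0, 6, 9, 17, 16, 0, 3, 5, 1],
  [16, 8, 10, 18, 9, 17, 13, 11, 1, 4, 2, 7, 21, 6, 20, 7, 0, 5, 3, 0, 14, 12],
  [7, 15, 17, 9, 10, 18, 21, 0, 12, 3, 4, 13, 8, 11, 19, 1, 8, 2, 5, 14, 0, 6],
  [10, 18, 8, 16, 15, 7, 20, 5, 2, 13, 0, 14, 19, 9, 11, 4, 3, 9, 1, 12, 6, 0]]

def pt (i : Fin 22) : R × R × R := pts.getD i.val (⟨0, 0, 0, 0⟩, ⟨0, 0, 0, 0⟩, ⟨0, 0, 0, 0⟩)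

def third (i j : Fin 22) : ℕ := (thirds.getD i.val []).getD j.val 0

/-- the 2 x 2 minors -/
def m01 (x y : R × R × R) : R := sub (mul x.1 y.2.1) (mul x.2.1 y.1)
def m02 (x y : R × R × R) : R := sub (mul x.1 y.2.2) (mul x.2.2 y.1)
def m12 (x y : R × R × R) : R := sub (mul x.2.1 y.2.2) (mul x.2.2 y.2.1)

/-- the determinant -/
def det3 (x y z : R × R × R) : R :=
  add (sub (mul z.1 (m12 x y)) (mul z.2.1 (m02 x y))) (mul z.2.2 (m01 x y))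

def okPair (i j : Fin 22) : Bool :=
  i == j || ((m01 (pt i) (pt j)).nz || (m02 (pt i) (pt j)).nz || (m12 (pt i) (pt j)).nz)

def okThird (i j : Fin 22) : Bool :=
  i == j || (if h : third i j < 22 then ((⟨third i j, h⟩ : Fin 22) != i && (⟨third i j, h⟩ : Fin 22) != j &&
    (det3 (pt i) (pt j) (pt ⟨third i j, h⟩)).isZero) else false)

theorem okPair_all : ∀ i j : Fin 22, okPair i j = true := by decide +kernel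

theorem okThird_all : ∀ i j : Fin 22, okThird i j = true := by decide +kernel

end SG22
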